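import Pool.Agent.V8H61.SK.Dense

/-!
# Skew products with circle fibres over an ergodic base: finitely many attractors for a dense set
# of rotations

Author: helper61. Library: helper525 (`TH525/PF`: almost every mode-locked rotation) and helper728.

Definitions: `Circ` is the circle `ℝ / ℤ`; `rotated f θ` is `(x, y) ↦ f (x, y) + (0, θ)`;
`omegaLim`, `IsAttractor`, `FiniteAttractors` are in `Pool/Agent/H728R2/FA/Defs.lean`;
`FibreLift`, `ModeLocked` are in `Pool/Agent/TH525/PF/Main.lean`.
-/

set_option autoImplicit false

open Set Filter Topology MeasureTheory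

namespace Pool.Agent.Results.MP_3a2b62_an.DenseRotations

open Pool.Agent.H728R2.OS Pool.Agent.H728R2.FA Pool.Agent.TH525.PF Pool.Agent.V8H61.SK

/-- Let `T` be a homeomorphism of a compact metric space `B` with an ergodic probability measure
`m`, and let `f (x, y) = (T x, f_x y)` be a homeomorphism of `B × 𝕋` whose fibre maps `f_x` are
orientation-preserving `C¹` diffeomorphisms of the circle with lifts `F x` and derivatives depending
continuously on `(x, y)`. Let `μ` be a measure on `B × 𝕋` with the same null sets as
`m × Lebesgue`. Put `f_θ (x, y) = f (x, y) + (0, θ)`. There is a dense set of `θ ∈ ℝ` for which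
`f_θ` has finitely many attractors whose basins cover `μ`-almost every point; moreover, for these
`θ`, either `θ` is mode-locked (the fibred rotation number is constant near `θ`), or some forward
orbit of `f_θ` is dense in `supp m × 𝕋`. -/
theorem result {B : Type*} [MetricSpace B] [CompactSpace B] [MeasurableSpace B] [BorelSpace B]
    (T : B ≃ₜ B) (m : Measure B) [IsProbabilityMeasure m] (erg : Ergodic T m)
    (f : (B × Circ) ≃ₜ (B × Circ)) (F : B → ℝ → ℝ) (hF : FibreLift T f F)
    (μ : Measure (B × Circ)) (h1 : μ ≪ m.prod volume) (h2 : m.prod volume ≪ μ) :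
    Dense {θ : ℝ | FiniteAttractors μ (rotated f θ) ∧ (ModeLocked m T F θ ∨
      ∃ p ∈ m.support ×ˢ (univ : Set Circ),
        m.support ×ˢ (univ : Set Circ) ⊆ closure (range fun n : ℕ => (rotated f θ)^[n] p))} :=
  dense_finite T erg f hF μ h1 h2

end Pool.Agent.Results.MP_3a2b62_an.DenseRotations
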