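import Pool.Agent.V8H2.PG.Main

set_option autoImplicit false

/-!
# Finitude of attractors near fibred systems with an energy

`M` is a closed manifold, `DiffM n M r = Diff^r(M)`, with the `C^r` topology `strongTop n M r`.

`Fibred n F` says: `F = S ∘ φ_1 ∘ … ∘ φ_m` (`m ≥ 0`), where `π : M → Q` is a smooth submersion to a
closed manifold, `S ∈ Diff^r(M)` satisfies `π ∘ S = π`, `η` is a smooth function on `Q`, and each
`φ_i` is the time-one map of a vector field `A_i (η ∘ π)`, where `A_i` is a linear map from smooth
functions to smooth vector fields with `(A_i f)(x) = 0` if `df_x = 0` and `df(A_i f) ≥ 0` (so that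
`A_i f = A_i df` for a field of linear maps `T*M → TM` with `ξ(A_i ξ) ≥ 0`). On the map `S` it is
assumed that

* (`CircleFibres`) the fibres of `π` are the orbits of a free smooth action of the circle and `S`
  acts on each fibre as an orientation preserving `C²` diffeomorphism, or
* (`AeGood`) there is a smooth flow `R` along the fibres (possibly constant) such that for almost
  every `q` and almost every `t` the map `R t ∘ S` is good on the fibre over `q` (`GoodOn`): its
  chain recurrent points there lie in finitely many pairwise disjoint closed invariant transitive
  sets.

Every `C^r` limit of such maps is a `C^r` limit of diffeomorphisms having finitely many attractors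
covering `M`.
-/

open scoped Manifold ContDiff Topology
open Set Filter MeasureTheory

universe u

namespace Pool.Agent.Results.MP_3a2b62_an.FibredEnergySystems

open Pool.Agent.H718R2.G Pool.Agent.V8H2.PG

open Pool.Agent.H728R2.FA (FiniteAttractors)

/-- **Finitude of attractors near fibred systems with an energy.** Let `M` be a closed manifold,
`1 ≤ r ≤ ∞`, and let `F ∈ Diff^r(M)` be in the `C^r` closure of the fibred systems with an energy.
Then every `C^r` neighbourhood of `F` contains a diffeomorphism with finitely many attractors
covering `M`, for every measure on `M`. -/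
theorem result (n : ℕ) (M : Type u) [TopologicalSpace M] [T2Space M] [CompactSpace M]
    [ChartedSpace (V n) M] [IsManifold (𝓡 n) ∞ M] (r : ℕ∞) (hr : 1 ≤ r) (F : DiffM n M r)
    (hF : F ∈ @closure _ (strongTop n M r) {F' : DiffM n M r | Fibred n F'})
    (U : Set (DiffM n M r)) (hU : IsOpen[strongTop n M r] U) (hFU : F ∈ U) :
    ∃ G ∈ U, ∀ (_ : MeasurableSpace M) (μ : Measure M), FiniteAttractors μ G :=
  closure_main hr F hF U hU hFU

end Pool.Agent.Results.MP_3a2b62_an.FibredEnergySystems
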