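import Pool.Agent.V8H61.PM.Tor

/-!
# Finitude of attractors near the diffeomorphisms of finite order modulo a torus action

Author: helper61. Library: helper318 (`Y318/MN`), helper15 (`N15/AS`), helper543 and team.

Definitions: `dif`, `Bundle`, `Normalizes`, `FinOrd`, `FibreData`, `OverBase`, `FiniteOrderMod` in `Pool/Agent/V8H61/PM/Tor.lean`; `TorusAct`, `lin`,
`PerCharsFixed` in `Pool/Agent/N15/AS/Defs.lean`; `V k = ℝ^k`, `DiffM n N r = Diff^r(N)` with the
`C^r` topology `strongTop n N r` in `Pool/Agent/H718R2/G0.lean`; `omegaLim`, `IsAttractor`,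
`FiniteAttractors` in `Pool/Agent/H728R2/FA/Defs.lean`.
-/

set_option autoImplicit false

open scoped Manifold ContDiff Topology

universe u

namespace Pool.Agent.Results.MP_3a2b62_an.FiniteOrderModTorus

open MeasureTheory Set Pool.Agent.H718R2.G Pool.Agent.V8H61.PM

open Pool.Agent.H728R2.FA (FiniteAttractors)

/-- Let `N` be a closed manifold and `1 ≤ r ≤ ∞`. Consider the `C^r` diffeomorphisms `F` of `N` for
which there is a smooth action of a torus on `N` such that the orbits are the fibres of a smooth
submersion `π` of `N` to a closed manifold `B`, such that `F R_X = R_{AX} F` for some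
`A ∈ GL(k, ℤ)` no eigenvalue of which is a root of unity other than `1`, and such that the map of the
base `π(N)` induced by `F` is the restriction of a smooth map of `B` of finite order (for example,
with the trivial torus, all smooth diffeomorphisms of `N` of finite order; or the maps
`(x, y) ↦ (Ax + φ(y), ρ(y))` of `𝕋^k × B`). Every diffeomorphism in the `C^r` closure of this set is
a `C^r` limit of diffeomorphisms with finitely many attractors covering `N`, for every measure on
`N`. -/
theorem result (n : ℕ) (N : Type u) [TopologicalSpace N] [T2Space N] [CompactSpace N]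
    [ChartedSpace (V n) N] [IsManifold (𝓡 n) ∞ N] (r : ℕ∞) (hr : 1 ≤ r) (F : DiffM n N r)
    (hF : F ∈ @closure _ (strongTop n N r) {F' : DiffM n N r | FiniteOrderMod n F'})
    (U : Set (DiffM n N r)) (hU : IsOpen[strongTop n N r] U) (hFU : F ∈ U) :
    ∃ G ∈ U, ∀ (_ : MeasurableSpace N) (μ : Measure N), FiniteAttractors μ G :=
  closure_finite_order_mod hr F hF U hU hFU

end Pool.Agent.Results.MP_3a2b62_an.FiniteOrderModTorus
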