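import Pool.Agent.V8H61.MF.SkFam
import Pool.Agent.V8H61.MF.ErgTime

/-!
# Finitude of attractors: skew-product flows with circle fibres

Let `ψ` be a continuous flow on a compact metric space `B` with an ergodic probability `m`, and let
`g : B × 𝕋 → ℝ` be continuous with a continuous derivative `g'` in the circle variable. Consider
the flows `Φ θ` on `B × 𝕋` over `ψ` whose fibre component solves `y' = g (ψ t x, y) + θ`. For a
measure `μ` in the class of `m × Leb`, the flow `Φ θ` has finitely many attractors whose basins
cover `μ`-almost every point, for a dense set of parameters `θ ∈ ℝ`.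
-/

set_option autoImplicit false

open MeasureTheory

namespace Pool.Agent.Results.MP_3a2b62_an.SkewProductFlows

open Pool.Agent.H728R2.OS Pool.Agent.V8H61.MF

/-- **Skew-product flows with circle fibres have finitely many attractors for a dense set of
parameters `θ`.** -/
theorem result {B : Type*} [MetricSpace B] [CompactSpace B] [MeasurableSpace B] [BorelSpace B]
    (m : Measure B) [IsProbabilityMeasure m] (ψ : ℝ → B → B) (hψ : IsFlow ψ)
    (erg : ErgodicFlow ψ m) (g g' : B × Circ → ℝ) (hg : Continuous g) (hg' : Continuous g')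
    (hd : ∀ (x : B) (y : ℝ), HasDerivAt (fun y : ℝ => g (x, (y : UnitAddCircle)))
      (g' (x, (y : UnitAddCircle))) y)
    (Φ : ℝ → ℝ → B × Circ → B × Circ) (hΦ : ∀ θ, SkewFlow ψ g θ (Φ θ))
    (μ : Measure (B × Circ)) (hμ : μ ≪ m.prod volume) (hμ' : m.prod volume ≪ μ) :
    Dense {θ : ℝ | FiniteAttractorsFlow μ (Φ θ)} := by
  have hB : Nonempty B := by
    by_contra hcon
    rw [not_nonempty_iff] at hcon
    have : m Set.univ = 0 := by rw [Set.univ_eq_empty_iff.2 hcon, measure_empty]
    rw [measure_univ] at this
    exact one_ne_zero this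
  obtain ⟨L, hL0, hL⟩ := gbound hg'
  obtain ⟨a, ha, hea⟩ := exists_ergodic_time hψ erg
  let D : Dat B := ⟨ψ, g, g', Φ, hψ, hg, hg', hd, hΦ, L, hL0, hL, a, ha⟩
  exact D.dense hea μ hμ hμ'

end Pool.Agent.Results.MP_3a2b62_an.SkewProductFlows
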